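import Pool.Agent.L0h32.CX.Stm

/-!
# The number of states
-/

set_option autoImplicit false

namespace Pool.Agent.L0h29.CX

open Pool.Agent.L0h32.CX

/-- the data of a cell as a memory -/
def wm {A : Type} (x : Wr) : Mem A :=
  ⟨x.first, x.k, x.c, x.cb, none, 0, 0, 0, x.b, 0, 0, false, 0⟩

/-- the first state -/
def z0 (h : ℕ) : Fin (2 ^ h) := ⟨0, by positivity⟩

/-- the data of a state -/
def dat {A : Type} (h : ℕ) : St (A := A) h → Fin 16 × Mem A × ℕ × Fin (2 ^ h)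
  | .wr x => (0, wm x, 0, z0 h)
  | .hm m => (1, m, 0, z0 h)
  | .h1 m => (2, m, 0, z0 h)
  | .rA m i => (3, m, i, z0 h)
  | .rB m p i => (4, m, i, p)
  | .rC m p i => (5, m, i, p)
  | .rR m i => (6, m, i, z0 h)
  | .ex x => (7, wm x, 0, z0 h)
  | .f1 => (8, wm ⟨false, 0, 0, 0, false⟩, 0, z0 h)
  | .fin => (9, wm ⟨false, 0, 0, 0, false⟩, 0, z0 h)

/-- the data of a cell in a memory -/
def mw {A : Type} (m : Mem A) : Wr := ⟨m.first, m.k, m.c, m.cb, m.b0⟩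

/-- the state with given data -/
def und {A : Type} (h : ℕ) (z : Fin 16 × Mem A × ℕ × Fin (2 ^ h)) : St (A := A) h :=
  match z.1.val with
  | 0 => .wr (mw z.2.1)
  | 1 => .hm z.2.1
  | 2 => .h1 z.2.1
  | 3 => .rA z.2.1 z.2.2.1
  | 4 => .rB z.2.1 z.2.2.2 z.2.2.1
  | 5 => .rC z.2.1 z.2.2.2 z.2.2.1
  | 6 => .rR z.2.1 z.2.2.1
  | 7 => .ex (mw z.2.1)
  | 8 => .f1
  | _ => .fin

theorem dat_inj {A : Type} (h : ℕ) : Function.Injective (dat (A := A) h) := by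
  apply Function.LeftInverse.injective (g := und h)
  intro s
  cases s <;> rfl

theorem dat_bd {A : Type} (h : ℕ) (s : St (A := A) h) (hs : Bd h s) :
    BdM h (dat h s).2.1 ∧ (dat h s).2.2.1 ≤ 2 * 2 ^ h + 1 := by
  cases s with
  | wr x =>
    obtain ⟨h1, h2, h3⟩ := hs
    exact ⟨⟨h1, h2, h3, Nat.zero_le _, Nat.zero_le _, Nat.zero_le _, Nat.zero_le _,
      Nat.zero_le _, Nat.zero_le _⟩, Nat.zero_le _⟩
  | hm m => exact ⟨hs, Nat.zero_le _⟩
  | h1 m => exact ⟨hs, Nat.zero_le _⟩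
  | rA m i => exact hs
  | rB m p i => exact hs
  | rC m p i => exact hs
  | rR m i => exact hs
  | ex x =>
    obtain ⟨h1, h2, h3⟩ := hs
    exact ⟨⟨h1, h2, h3, Nat.zero_le _, Nat.zero_le _, Nat.zero_le _, Nat.zero_le _,
      Nat.zero_le _, Nat.zero_le _⟩, Nat.zero_le _⟩
  | f1 =>
    exact ⟨⟨Nat.zero_le _, Nat.zero_le _, Nat.zero_le _, Nat.zero_le _, Nat.zero_le _,
      Nat.zero_le _, Nat.zero_le _, Nat.zero_le _, Nat.zero_le _⟩, Nat.zero_le _⟩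
  | fin =>
    exact ⟨⟨Nat.zero_le _, Nat.zero_le _, Nat.zero_le _, Nat.zero_le _, Nat.zero_le _,
      Nat.zero_le _, Nat.zero_le _, Nat.zero_le _, Nat.zero_le _⟩, Nat.zero_le _⟩

/-- the codes -/
abbrev TT (A : Type) (h : ℕ) : Type :=
  Fin 16 × Bool × (Fin 8 → Fin (2 ^ (h + 1))) × Option A × Fin 4 × Bool × Bool ×
    Fin (2 ^ (h + 2)) × Fin (2 ^ h)

/-- a number modulo `N` -/
def md (N n : ℕ) (hN : 0 < N) : Fin N := ⟨n % N, Nat.mod_lt n hN⟩

theorem md_inj {N n n' : ℕ} (hN : 0 < N) (h1 : n < N) (h2 : n' < N)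
    (e : md N n hN = md N n' hN) : n = n' := by
  have h3 : n % N = n' % N := congrArg Fin.val e
  rwa [Nat.mod_eq_of_lt h1, Nat.mod_eq_of_lt h2] at h3

/-- the code -/
def code {A : Type} (h : ℕ) (z : Fin 16 × Mem A × ℕ × Fin (2 ^ h)) : TT A h :=
  (z.1, z.2.1.first,
    (fun j => md (2 ^ (h + 1)) (![z.2.1.k, z.2.1.c, z.2.1.cb, z.2.1.y, z.2.1.cn, z.2.1.z, z.2.1.d,
      z.2.1.c'] j) (by positivity)),
    z.2.1.a, md 4 z.2.1.job (by norm_num), z.2.1.b0, z.2.1.f,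
    md (2 ^ (h + 2)) z.2.2.1 (by positivity), z.2.2.2)

theorem code_inj {A : Type} (h : ℕ) (z z' : Fin 16 × Mem A × ℕ × Fin (2 ^ h))
    (h1 : BdM h z.2.1 ∧ z.2.2.1 ≤ 2 * 2 ^ h + 1) (h2 : BdM h z'.2.1 ∧ z'.2.2.1 ≤ 2 * 2 ^ h + 1)
    (e : code h z = code h z') : z = z' := by
  obtain ⟨t, m, i, p⟩ := z
  obtain ⟨t', m', i', p'⟩ := z'
  obtain ⟨⟨b1, b2, b3, b4, b5, b6, b7, b8, b9⟩, bi⟩ := h1
  obtain ⟨⟨c1, c2, c3, c4, c5, c6, c7, c8, c9⟩, ci⟩ := h2
  simp only at b1 b2 b3 b4 b5 b6 b7 b8 b9 bi c1 c2 c3 c4 c5 c6 c7 c8 c9 ci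
  have hB : 0 < 2 ^ h := by positivity
  have hB1 : 2 ^ (h + 1) = 2 * 2 ^ h := by ring
  have hB2 : 2 ^ (h + 2) = 4 * 2 ^ h := by ring
  have key : ∀ n n' : ℕ, n ≤ 2 ^ h → n' ≤ 2 ^ h →
      md (2 ^ (h + 1)) n (by positivity) = md (2 ^ (h + 1)) n' (by positivity) → n = n' :=
    fun n n' g g' ge => md_inj _ (by omega) (by omega) ge
  have e1 : t = t' := congrArg (fun z => z.1) e
  have e2 : m.first = m'.first := congrArg (fun z => z.2.1) e
  have e3 := congrArg (fun z => z.2.2.1) e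
  have e4 : m.a = m'.a := congrArg (fun z => z.2.2.2.1) e
  have e5 : m.job = m'.job := md_inj (by norm_num) (by omega) (by omega)
    (congrArg (fun z => z.2.2.2.2.1) e)
  have e6 : m.b0 = m'.b0 := congrArg (fun z => z.2.2.2.2.2.1) e
  have e7 : m.f = m'.f := congrArg (fun z => z.2.2.2.2.2.2.1) e
  have e8 : i = i' := md_inj (N := 2 ^ (h + 2)) (by positivity) (by omega) (by omega)
    (congrArg (fun z => z.2.2.2.2.2.2.2.1) e)
  have e9 : p = p' := congrArg (fun z => z.2.2.2.2.2.2.2.2) e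
  have k0 : m.k = m'.k := key _ _ b1 c1 (congrFun e3 0)
  have k1 : m.c = m'.c := key _ _ b2 c2 (congrFun e3 1)
  have k2 : m.cb = m'.cb := key _ _ b3 c3 (congrFun e3 2)
  have k3 : m.y = m'.y := key _ _ b5 c5 (congrFun e3 3)
  have k4 : m.cn = m'.cn := key _ _ b6 c6 (congrFun e3 4)
  have k5 : m.z = m'.z := key _ _ b7 c7 (congrFun e3 5)
  have k6 : m.d = m'.d := key _ _ b8 c8 (congrFun e3 6)
  have k7 : m.c' = m'.c' := key _ _ b9 c9 (congrFun e3 7)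
  have em : m = m' := by
    cases m
    cases m'
    simp only at e2 e4 e5 e6 e7 k0 k1 k2 k3 k4 k5 k6 k7
    subst e2 e4 e5 e6 e7 k0 k1 k2 k3 k4 k5 k6 k7
    rfl
  rw [e1, em, e8, e9]

theorem card_TT (A : Type) [Finite A] (h : ℕ) :
    Nat.card (TT A h) ≤ 2 ^ (10 * h + 20) * (Nat.card A + 1) := by
  have hf : Fintype A := Fintype.ofFinite A
  rw [Nat.card_eq_fintype_card, Nat.card_eq_fintype_card]
  simp only [Fintype.card_prod, Fintype.card_fin, Fintype.card_bool, Fintype.card_option,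
    Fintype.card_fun]
  have e : 16 * (2 * ((2 ^ (h + 1)) ^ 8 * ((Fintype.card A + 1) * (4 * (2 * (2 *
      (2 ^ (h + 2) * 2 ^ h))))))) = 2 ^ (10 * h + 19) * (Fintype.card A + 1) := by
    ring
  rw [e]
  exact Nat.mul_le_mul_right _ (Nat.pow_le_pow_right (by norm_num) (by omega))

theorem t_CARD : S_CARD := by
  intro A _ h
  have hinj : Function.Injective
      (fun s : {s : St (A := A) h // Bd h s} => code h (dat h s.1)) := by
    intro s s' e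
    exact Subtype.ext (dat_inj h (code_inj h _ _ (dat_bd h _ s.2) (dat_bd h _ s'.2) e))
  exact ⟨Finite.of_injective _ hinj,
    (Nat.card_le_card_of_injective _ hinj).trans (card_TT A h)⟩

end Pool.Agent.L0h29.CX
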